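import Pool.Agent.Helper34.Bw.NecA2
import Pool.Agent.Helper34.Bw.NecB
import Pool.Agent.Helper34.Bw.Power

set_option autoImplicit false

namespace Pool.Agent.Results.MP_193109_an.Characterization

open Complex Metric Set Filter Topology
open Pool.Agent.Helper34.Bw

/-- Property (P): for every `f ∈ B_ω` and every inner `Θ` the conditions (i) `fΘ ∈ B_ω`,
(ii) `S_ε(f, Θ) < ∞` for some `ε ∈ (0,1)`, (iii) `S_ε(f, Θ) < ∞` for every `ε ∈ (0,1)` are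
equivalent. -/
def PropertyP (ω : ℝ → ℝ) : Prop :=
  ∀ f : ℂ → ℂ, InB ω f → ∀ Θ : ℂ → ℂ, IsInner Θ →
    List.TFAE [InB ω (fun z => f z * Θ z),
      ∃ ε ∈ Set.Ioo (0:ℝ) 1, SFinite ω f Θ ε,
      ∀ ε ∈ Set.Ioo (0:ℝ) 1, SFinite ω f Θ ε]

theorem result (ω : ℝ → ℝ) (hω : IsModulus ω) :
    List.TFAE [PropertyP ω,
      AlmostDecreasing ω ∧ DiniRegular ω,
      TwoSided ω] := by
  tfae_have 2 ↔ 3 := twoSided_iff hω
  tfae_have 2 → 1 := by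
    rintro ⟨ha, hb⟩ f hf Θ hΘ
    tfae_have 1 → 3 := fun h1 ε hε => suff_i_iii hω hb hf hΘ h1 hε.2
    tfae_have 3 → 2 := fun h3 => ⟨1/2, by norm_num, h3 (1/2) (by norm_num)⟩
    tfae_have 2 → 1 := by
      rintro ⟨ε, hε, h2⟩
      exact suff_ii_i hω ha hb hf hΘ hε.1 hε.2 h2
    tfae_finish
  tfae_have 1 → 2 := by
    intro hP
    by_cases ha : AlmostDecreasing ω
    · refine ⟨ha, ?_⟩
      by_contra hD
      obtain ⟨f, Θ, ε, hf, -, hΘ, hε, hS, hn⟩ := nec_b hω ha hD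
      have h2 : ∃ ε ∈ Set.Ioo (0:ℝ) 1, SFinite ω f Θ ε := ⟨ε, hε, hS⟩
      exact hn (((hP f hf Θ hΘ).out 1 0).1 h2)
    · exfalso
      obtain ⟨f, Θ, ε, hf, -, hΘ, hε, hS, hn⟩ := nec_a hω ha
      have h2 : ∃ ε ∈ Set.Ioo (0:ℝ) 1, SFinite ω f Θ ε := ⟨ε, hε, hS⟩
      exact hn (((hP f hf Θ hΘ).out 1 0).1 h2)
  tfae_finish

end Pool.Agent.Results.MP_193109_an.Characterization
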